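import Pool.Agent.helper17.GFG.Spec

/-!
# Project GFG (MP_561ff4_al), row KFA (helper16): one short root element
-/

set_option autoImplicit false

open Finset

namespace Pool.Agent.EXT

open Pool.Agent.EXC

theorem KFA_ch (v w : Fin 6 → ℤ) : ch6 (v + w) = ch6 v + ch6 w := by
  unfold ch6
  simp only [Pi.add_apply]
  ring

theorem KFA_chn (v : Fin 6 → ℤ) : ch6 (-v) = -ch6 v := by
  unfold ch6
  simp only [Pi.neg_apply]
  ring

theorem KFA_r {α β : Fin 6 → ℤ} (hα : ip C6 α α = 2) (hβ : ip C6 β β = 2) (h : ip C6 α β = -1) :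
    ip C6 (α + β) (α + β) = 2 ∧ ip C6 (-α) (α + β) = -1 ∧ ip C6 β (α + β) = 1 := by
  have h' : ip C6 β α = -1 := by rw [ip_comm]; exact h
  have hn : ip C6 (-α) (α + β) = -ip C6 α (α + β) := ip_neg_left C6 α (α + β)
  refine ⟨?_, ?_, ?_⟩
  · rw [ip_add_left, ip_add_right, ip_add_right, hα, hβ, h', h]
    norm_num
  · rw [hn, ip_add_right, hα, h]
    norm_num
  · rw [ip_add_right, h', hβ]
    norm_num

theorem KFA (hKXC : KXC_stmt) (hKSC : KSC_stmt) (hRTF : RTF_stmt) : KFA_stmt := by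
  intro K _ τ hτ c hc c0 H hH γ u μ hγ hu hμ h1 h2 h3 r e X he hX hm
  obtain ⟨-, k2, k3, -, k5⟩ := hKSC K τ hτ
  obtain ⟨hSR, hLR, ε, ε', hε, hε', hk⟩ := k2 γ u hγ hu h1
  have hcz : ∀ n : ℤ, τ (c ^ n) = c ^ n := fun n => by rw [map_zpow₀, hc]
  have hte : τ (e * c ^ (ch6 u)) = e * c ^ (ch6 u) := by
    rw [map_mul, hcz]
    rcases he with h | h <;> rw [h] <;> simp
  obtain ⟨g', hg', heq⟩ := hk (r * c ^ (ch6 γ)) (e * c ^ (ch6 u)) X hte hX
  set l : K := (ε' : K) * (r * c ^ (ch6 γ) * τ (r * c ^ (ch6 γ))) * (e * c ^ (ch6 u)) with hl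
  set lam := γ + pv γ + u with hlam
  have huH : XP6 c u e ∈ H := by
    rcases he with h | h
    · rw [h]; exact hH u hu
    · rw [h, (hKXC K c c0 u u hu.1 hu.1 1 1).2.2.2.2.1]
      exact inv_mem (hH u hu)
  have hA : g' * XG C6 lam l ∈ H := by
    have h4 : X * XP6 c u e * X⁻¹ = XP6 c u e * (g' * XG C6 lam l) := by
      refine heq.trans ?_
      rw [mul_assoc]
      rfl
    rw [h4] at hm
    exact (Subgroup.mul_mem_cancel_left H huH).1 hm
  have hmu := hH μ hμ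
  have hnR : LR (-μ) := by
    refine ⟨by rw [ip_neg_left, ip_neg_right, hμ.1]; norm_num, ?_⟩
    have h4 := hμ.2
    funext i
    have h5 := congrFun h4 i
    unfold pv at h5 ⊢
    simp only [Pi.neg_apply]
    rw [h5]
  have hnmu := hH (-μ) hnR
  have hlr := hLR.1
  obtain ⟨hs, hnm, hls⟩ := KFA_r hμ.1 hlr h2
  set m : K := 1 * c ^ (ch6 μ) with hmm
  set m' : K := 1 * c ^ (ch6 (-μ)) with hmm'
  have hmem : XG C6 μ m ∈ H := hmu
  have hmem' : XG C6 (-μ) m' ∈ H := hnmu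
  have hmul : m' * m = 1 := by
    rw [hmm, hmm', KFA_chn, one_mul, one_mul, ← zpow_add₀ c0]
    simp
  -- commutation of g' with XG μ and XG (μ + lam)
  have hgl : ip C6 (γ + u) lam = 1 := by
    have h7 : ip C6 γ (pv γ) = 0 := hRTF.2.2.2.2.2.2.2.2.2.2.2.2.1 γ hγ
    have h6 : ip C6 u (pv γ) = -1 := by
      have h8 := hRTF.1 u γ
      rw [hu.2] at h8
      rw [h8, ip_comm, h1]
    have h9 : ip C6 (γ + u) (γ + pv γ + u) = 1 := by
      rw [ip_add_left, ip_add_right, ip_add_right, ip_add_right, ip_add_right, hγ.1, hu.1, h7, h1, h6, ip_comm C6 u γ, h1]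
      norm_num
    exact h9
  have hc1 : g' * XG C6 μ m = XG C6 μ m * g' := k3 (γ + u) μ hSR hμ (by rw [ip_comm, h3]) _ _ _ hg'
  have hLRs : LR (μ + lam) := by
    refine ⟨hs, ?_⟩
    have h4 : ∀ v w : Fin 6 → ℤ, pv (v + w) = pv v + pv w := fun v w => rfl
    rw [h4, hμ.2, hLR.2]
  have hc2 : ∀ t : K, g' * XG C6 (μ + lam) t = XG C6 (μ + lam) t * g' := fun t =>
    k3 (γ + u) (μ + lam) hSR hLRs (by rw [ip_add_right, ip_comm C6 (γ + u) μ, h3, hgl]; norm_num) _ _ _ hg'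
  have hg1 := (k_GXC 6 C6 K hb6 μ lam hμ.1 hlr m l).2.2.2 h2
  have hg2 : ∀ t : K, XG C6 lam l * XG C6 (μ + lam) t = XG C6 (μ + lam) t * XG C6 lam l := fun t =>
    (k_GXC 6 C6 K hb6 lam (μ + lam) hlr hs l t).2.2.1 (by rw [hls]; norm_num)
  set l' : K := m * l * (sg C6 μ lam : K) with hl'
  have hl'H : XG C6 (μ + lam) l' ∈ H := by
    have h4 : XG C6 μ m * (g' * XG C6 lam l) * (XG C6 μ m)⁻¹ * (g' * XG C6 lam l)⁻¹ = XG C6 (μ + lam) l' := by
      calc XG C6 μ m * (g' * XG C6 lam l) * (XG C6 μ m)⁻¹ * (g' * XG C6 lam l)⁻¹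
          = (XG C6 μ m * g') * XG C6 lam l * (XG C6 μ m)⁻¹ * (g' * XG C6 lam l)⁻¹ := by simp only [mul_assoc]
        _ = g' * (XG C6 μ m * XG C6 lam l * (XG C6 μ m)⁻¹) * (g' * XG C6 lam l)⁻¹ := by rw [← hc1]; simp only [mul_assoc]
        _ = g' * (XG C6 lam l * XG C6 (μ + lam) l') * (g' * XG C6 lam l)⁻¹ := by rw [hg1]
        _ = g' * (XG C6 (μ + lam) l' * XG C6 lam l) * (g' * XG C6 lam l)⁻¹ := by rw [hg2]
        _ = (g' * XG C6 (μ + lam) l') * (XG C6 lam l * (g' * XG C6 lam l)⁻¹) := by simp only [mul_assoc]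
        _ = (XG C6 (μ + lam) l' * g') * (XG C6 lam l * (g' * XG C6 lam l)⁻¹) := by rw [hc2]
        _ = XG C6 (μ + lam) l' * ((g' * XG C6 lam l) * (g' * XG C6 lam l)⁻¹) := by simp only [mul_assoc]
        _ = XG C6 (μ + lam) l' := by rw [mul_inv_cancel, mul_one]
    rw [← h4]
    exact mul_mem (mul_mem (mul_mem hmem hA) (inv_mem hmem)) (inv_mem hA)
  have hg3 := (k_GXC 6 C6 K hb6 (-μ) (μ + lam) hnR.1 hs m' l').2.2.2 hnm
  have hlH : XG C6 lam l ∈ H := by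
    have h4 : XG C6 (-μ + (μ + lam)) (m' * l' * (sg C6 (-μ) (μ + lam) : K)) ∈ H := by
      have h5 : XG C6 (-μ + (μ + lam)) (m' * l' * (sg C6 (-μ) (μ + lam) : K)) =
          (XG C6 (μ + lam) l')⁻¹ * (XG C6 (-μ) m' * XG C6 (μ + lam) l' * (XG C6 (-μ) m')⁻¹) := by rw [hg3, inv_mul_cancel_left]
      rw [h5]
      exact mul_mem (inv_mem hl'H) (mul_mem (mul_mem hmem' hl'H) (inv_mem hmem'))
    rw [neg_add_cancel_left] at h4
    have h5 : m' * l' * (sg C6 (-μ) (μ + lam) : K) = (m' * m) * ((sg C6 μ lam : K) * (sg C6 (-μ) (μ + lam) : K)) * l := by rw [hl']; ring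
    rw [h5, hmul, one_mul] at h4
    have h6 : (sg C6 μ lam : K) * (sg C6 (-μ) (μ + lam) : K) = 1 ∨ (sg C6 μ lam : K) * (sg C6 (-μ) (μ + lam) : K) = -1 := by
      rcases sg_cases C6 μ lam with h | h <;> rcases sg_cases C6 (-μ) (μ + lam) with h' | h' <;> rw [h, h'] <;> simp
    rcases h6 with h | h
    · rw [h, one_mul] at h4
      exact h4
    · rw [h, neg_one_mul, ← (g_XG K lam hlr l).2.2] at h4
      exact (inv_mem_iff).1 h4
  have hgH : g' ∈ H := (Subgroup.mul_mem_cancel_right H hlH).1 hA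
  intro X' hX'
  have h5 : (ε : K) * (r * c ^ (ch6 γ)) * (e * c ^ (ch6 u)) = ((ε : K) * e) * (r * c ^ (ch6 (γ + u))) := by
    rw [KFA_ch, zpow_add₀ c0]
    ring
  rw [h5] at hg'
  obtain ⟨-, k5b, k5c⟩ := k5 (γ + u) hSR
  have h6 : (ε : K) * e = 1 ∨ (ε : K) * e = -1 := by
    rcases hε with h | h <;> rcases he with h' | h' <;> rw [h, h'] <;> simp
  rcases h6 with h | h
  · rw [h, one_mul] at hg'
    rw [k5c _ _ _ hX' hg']
    exact hgH
  · rw [h, neg_one_mul] at hg'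
    have h7 := k5b _ _ hg'
    rw [neg_neg] at h7
    rw [k5c _ _ _ hX' h7]
    exact inv_mem hgH

end Pool.Agent.EXT
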