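import Pool.Agent.helper17.GFG.Spec

/-!
# Project GFG (MP_561ff4_al), row KLG (helper16): all root elements generate
-/

set_option autoImplicit false

open Finset

namespace Pool.Agent.EXT

open Pool.Agent.EXC

set_option maxRecDepth 100000 in
theorem KLG_c : ∀ β ∈ RL, pv β = β → ∃ γ ∈ RL, pv γ ≠ γ ∧ ip C6 (β - (γ + pv γ)) (β - (γ + pv γ)) = 2 ∧ pv (β - (γ + pv γ)) = β - (γ + pv γ) ∧
    ip C6 γ (β - (γ + pv γ)) = -1 := by decide +kernel

theorem KLG (hKSC : KSC_stmt) (hKSQ : KSQ_stmt) (hSGR : SGR_stmt) (hLST : LST_stmt) : KLG_stmt := by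
  intro K _ _ τ hτ c hc c0 H hH hS
  obtain ⟨-, k2, -, -, -⟩ := hKSC K τ hτ
  have hsh : ∀ γ, SR γ → ∀ (s : K) (g : Lm C6 K ≃ₗ[K] Lm C6 K), IsS τ γ s g → g ∈ H := by
    intro γ hγ s g hg
    refine hS γ hγ (s * (c ^ (ch6 γ))⁻¹) g ?_
    rw [inv_mul_cancel_right₀ (zpow_ne_zero _ c0)]
    exact hg
  refine (Subgroup.closure_le H).2 ?_
  rintro g (⟨β, t, hβ, ht, hg⟩ | ⟨γ, t, hγ, hg⟩)
  · obtain ⟨γ, m1, n1, n2, n3, n4⟩ := KLG_c β ((hLST β).1 hβ.1) hβ.2
    set u := β - (γ + pv γ) with hu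
    have hγ : SR γ := ⟨(hLST γ).2 m1, n1⟩
    have huR : LR u := ⟨n2, n3⟩
    obtain ⟨hSR, -, ε, ε', hε, hε', hk⟩ := k2 γ u hγ huR n4
    have hsum : γ + pv γ + u = β := by rw [hu]; abel
    rw [hsum] at hk
    have hβ2 := hβ.1
    let F : Subfield K := RingHom.eqLocusField (τ : K →+* K) (RingHom.id K)
    have hF : ∀ x : F, τ (x : K) = x := fun x => x.2
    have hcF : τ (c ^ (ch6 u)) = c ^ (ch6 u) := by rw [map_zpow₀, hc]
    have hcal := fun s t : K => k_GXC 6 C6 K hb6 β β hβ2 hβ2 s t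
    let A : AddSubgroup F :=
      { carrier := {r | XG C6 β (r : K) ∈ H}
        add_mem' := by
          intro a b ha hb
          change XG C6 β ((a : K) + (b : K)) ∈ H
          rw [(hcal _ _).1]
          exact mul_mem ha hb
        zero_mem' := by
          change XG C6 β (0 : K) ∈ H
          rw [(hcal 0 0).2.1]
          exact one_mem _
        neg_mem' := by
          intro a ha
          change XG C6 β (-(a : K)) ∈ H
          rw [← (g_XG K β hβ2 _).2.2]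
          exact inv_mem ha }
    have hk0 : τ ((ε' : K) * c ^ (ch6 u)) = (ε' : K) * c ^ (ch6 u) := by rw [map_mul, map_intCast, hcF]
    let k : F := ⟨(ε' : K) * c ^ (ch6 u), hk0⟩
    have hk1 : k ≠ 0 := by
      intro h
      have h2 := congrArg Subtype.val h
      have h3 : (ε' : K) * c ^ (ch6 u) = 0 := h2
      have h4 : (ε' : K) ≠ 0 := by rcases hε' with h | h <;> rw [h] <;> simp
      exact mul_ne_zero h4 (zpow_ne_zero _ c0) h3
    have hA : A = ⊤ := by
      refine hKSQ F k hk1 A fun s => ?_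
      change XG C6 β ((k * s ^ 2 : F) : K) ∈ H
      obtain ⟨X, -, hX⟩ := (hSGR K τ hτ).1 γ (s : K) hγ
      obtain ⟨g', hg', he⟩ := hk (s : K) (c ^ (ch6 u)) X hcF hX
      have h1 : X ∈ H := hsh γ hγ _ X hX
      have h2 : g' ∈ H := hsh _ hSR _ g' hg'
      have h3 : XG C6 u (c ^ (ch6 u)) ∈ H := by
        have h4 := hH u huR
        unfold XP6 at h4
        rwa [one_mul] at h4
      have h4 : XG C6 β ((ε' : K) * ((s : K) * τ (s : K)) * c ^ (ch6 u)) ∈ H := by
        have h5 : XG C6 β ((ε' : K) * ((s : K) * τ (s : K)) * c ^ (ch6 u)) =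
            (XG C6 u (c ^ (ch6 u)) * g')⁻¹ * (X * XG C6 u (c ^ (ch6 u)) * X⁻¹) := by rw [he, inv_mul_cancel_left]
        rw [h5]
        exact mul_mem (inv_mem (mul_mem h3 h2)) (mul_mem (mul_mem h1 h3) (inv_mem h1))
      rw [hF s] at h4
      have h5 : ((k * s ^ 2 : F) : K) = (ε' : K) * ((s : K) * (s : K)) * c ^ (ch6 u) := by
        have h6 : ((k * s ^ 2 : F) : K) = (ε' : K) * c ^ (ch6 u) * (s : K) ^ 2 := rfl
        rw [h6]
        ring
      rw [h5]
      exact h4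
    have ht2 : (⟨t, ht⟩ : F) ∈ A := by rw [hA]; exact AddSubgroup.mem_top _
    have ht3 : XG C6 β t ∈ H := ht2
    have h6 : g = XG C6 β t := LinearEquiv.ext fun v => by rw [hg v, (g_XG K β hβ2 t).1]
    rw [h6]
    exact ht3
  · exact hsh γ hγ t g hg

end Pool.Agent.EXT
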