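import Pool.Agent.helper17.GFG.Spec

/-!
# Project GFG (MP_561ff4_al), row KRG (helper16): short root elements and the grading
-/

set_option autoImplicit false

open Finset

namespace Pool.Agent.EXT

open Pool.Agent.EXC

/-- the six gradings -/
def KRG_G : List (ℤ × ℤ) := [(0, 1), (-1, -1), (1, 0), (0, -1), (1, 1), (-1, 0)]

theorem KRG_pv (v : Fin 6 → ℤ) : pv v = v ↔ gr6 v = (0, 0) := by
  unfold gr6
  constructor
  · intro h
    have h0 := congrFun h 0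
    have h2 := congrFun h 2
    have e0 : pv v 0 = v 5 := rfl
    have e2 : pv v 2 = v 4 := rfl
    rw [e0] at h0
    rw [e2] at h2
    rw [h0, h2]
    simp
  · intro h
    have h0 := congrArg Prod.fst h
    have h2 := congrArg Prod.snd h
    simp only at h0 h2
    have h0' : v 0 = v 5 := by linarith
    have h2' : v 2 = v 4 := by linarith
    funext i
    fin_cases i
    · exact h0'.symm
    · rfl
    · exact h2'.symm
    · rfl
    · exact h2'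
    · exact h0'

theorem KRG_add (v w : Fin 6 → ℤ) : gr6 (v + w) = gr6 v + gr6 w := by
  unfold gr6
  simp only [Pi.add_apply, Prod.mk_add_mk]
  refine Prod.ext ?_ ?_ <;> simp only <;> ring

theorem KRG_sub (v w : Fin 6 → ℤ) : gr6 (v - w) = gr6 v - gr6 w := by
  unfold gr6
  simp only [Pi.sub_apply, Prod.mk_sub_mk]
  refine Prod.ext ?_ ?_ <;> simp only <;> ring

theorem KRG_c0 : ∀ γ ∈ RL, gr6 γ = (0, 0) ∨ gr6 γ ∈ KRG_G := by decide +kernel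

set_option maxRecDepth 100000 in
theorem KRG_c1 : ∀ γ ∈ RL, gr6 γ ≠ (0, 0) → ∀ γ' ∈ RL, gr6 γ = gr6 γ' → γ = γ' ∨ ip C6 γ γ' = 1 ∨ ip C6 γ γ' = 0 := by decide +kernel

set_option maxRecDepth 100000 in
theorem KRG_c2 : ∀ γ ∈ RL, gr6 γ ≠ (0, 0) → ∀ γ' ∈ RL, gr6 γ = gr6 γ' → ip C6 γ γ' = 0 →
    ∃ γ'' ∈ RL, gr6 γ = gr6 γ'' ∧ ip C6 γ γ'' = 1 ∧ ip C6 γ'' γ' = 1 := by decide +kernel

set_option maxRecDepth 100000 in
theorem KRG_c3 : ∀ γ ∈ RL, gr6 γ ≠ (0, 0) → ∀ d ∈ KRG_G, gr6 γ + d ∈ KRG_G → ∃ δ ∈ RL, gr6 δ = d ∧ ip C6 γ δ = -1 ∧ ip C6 γ (pv δ) = 0 := by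
  decide +kernel

theorem KRG_ch (v w : Fin 6 → ℤ) : ch6 (v + w) = ch6 v + ch6 w := by
  unfold ch6
  simp only [Pi.add_apply]
  ring

theorem KRG (hKSC : KSC_stmt) (hKWS : KWS_stmt) (hLST : LST_stmt) (hSGR : SGR_stmt) : KRG_stmt := by
  intro K _ τ hτ c hc c0 H hH
  obtain ⟨k1, -, -, -, k5⟩ := hKSC K τ hτ
  have hgr : ∀ γ, SR γ → γ ∈ RL ∧ gr6 γ ≠ (0, 0) := fun γ hγ => ⟨(hLST γ).1 hγ.1, fun h => hγ.2 ((KRG_pv γ).2 h)⟩
  have hSR : ∀ γ, γ ∈ RL → gr6 γ ≠ (0, 0) → SR γ := fun γ h1 h2 => ⟨(hLST γ).2 h1, fun h => h2 ((KRG_pv γ).1 h)⟩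
  have hG : ∀ γ, SR γ → gr6 γ ∈ KRG_G := fun γ hγ => (KRG_c0 γ (hgr γ hγ).1).resolve_left (hgr γ hγ).2
  -- one step
  have hst : ∀ γ γ', SR γ → SR γ' → gr6 γ = gr6 γ' → ip C6 γ γ' = 1 → ∀ r : K, RS τ c H γ r → RS τ c H γ' r := by
    intro γ γ' hγ hγ' he h1 r hr
    have hb : LR (γ' - γ) := by
      refine ⟨?_, (KRG_pv _).2 (by rw [KRG_sub, he, sub_self]; rfl)⟩
      rw [sub_eq_add_neg, ip_add_left, ip_add_right, ip_add_right, ip_neg_left, ip_neg_left, ip_neg_right, ip_neg_right, hγ.1, hγ'.1,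
        ip_comm C6 γ' γ, h1]
      norm_num
    have hbn : LR (-(γ' - γ)) := by
      refine ⟨by rw [ip_neg_left, ip_neg_right, hb.1]; norm_num, (KRG_pv _).2 ?_⟩
      rw [neg_sub, KRG_sub, he, sub_self]
      rfl
    have h2 : ip C6 γ (γ' - γ) = -1 := by
      rw [sub_eq_add_neg, ip_add_right, ip_neg_right, hγ.1, h1]
      norm_num
    have h3 := hKWS K τ hτ c hc c0 H γ (γ' - γ) hγ hb h2 (hH _ hb) (hH _ hbn) r hr
    rwa [add_sub_cancel] at h3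
  have hA : ∀ γ γ', SR γ → SR γ' → gr6 γ = gr6 γ' → ∀ r : K, RS τ c H γ r → RS τ c H γ' r := by
    intro γ γ' hγ hγ' he r hr
    obtain ⟨m1, n1⟩ := hgr γ hγ
    obtain ⟨m2, n2⟩ := hgr γ' hγ'
    rcases KRG_c1 γ m1 n1 γ' m2 he with h | h | h
    · rw [← h]; exact hr
    · exact hst γ γ' hγ hγ' he h r hr
    · obtain ⟨γ'', m3, e1, e2, e3⟩ := KRG_c2 γ m1 n1 γ' m2 he h
      have h3 : SR γ'' := hSR γ'' m3 (by rw [← e1]; exact n1)
      exact hst γ'' γ' h3 hγ' (by rw [← e1, he]) e3 r (hst γ γ'' hγ h3 e1 e2 r hr)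
  refine ⟨hA, ?_, ?_⟩
  · intro γ δ η hγ hδ hη he r s hr hs
    obtain ⟨m1, n1⟩ := hgr γ hγ
    obtain ⟨δ', m2, e1, e2, e3⟩ := KRG_c3 γ m1 n1 (gr6 δ) (hG δ hδ) (by rw [← he]; exact hG η hη)
    have hδ' : SR δ' := hSR δ' m2 (by rw [e1]; exact (hgr δ hδ).2)
    have hs' := hA δ δ' hδ hδ' e1.symm s hs
    obtain ⟨hSS, ε, hε, hk⟩ := k1 γ δ' hγ hδ' e2 e3
    refine hA (γ + δ') η hSS hη (by rw [KRG_add, e1, he]) _ ?_
    intro X hX
    obtain ⟨g, -, hg⟩ := (hSGR K τ hτ).1 γ (r * c ^ (ch6 γ)) hγ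
    obtain ⟨h, -, hh⟩ := (hSGR K τ hτ).1 δ' (s * c ^ (ch6 δ')) hδ'
    have hgH : g ∈ H := hr g hg
    have hhH : h ∈ H := hs' h hh
    have hcm := hk _ _ g h hg hh
    have hcH : g * h * g⁻¹ * h⁻¹ ∈ H := mul_mem (mul_mem (mul_mem hgH hhH) (inv_mem hgH)) (inv_mem hhH)
    have e4 : (ε : K) * (r * c ^ (ch6 γ)) * (s * c ^ (ch6 δ')) = (ε : K) * (r * s * c ^ (ch6 (γ + δ'))) := by
      rw [KRG_ch, zpow_add₀ c0]
      ring
    rw [e4] at hcm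
    obtain ⟨-, k5b, k5c⟩ := k5 (γ + δ') hSS
    rcases hε with h' | h'
    · rw [h', Int.cast_one, one_mul] at hcm
      rw [k5c _ _ _ hX hcm]
      exact hcH
    · rw [h', Int.cast_neg, Int.cast_one, neg_one_mul] at hcm
      have h7 := k5b _ _ hcm
      rw [neg_neg] at h7
      rw [k5c _ _ _ hX h7]
      exact inv_mem hcH
  · intro γ hγ r s hr hs
    obtain ⟨k5a, k5b, k5c⟩ := k5 γ hγ
    obtain ⟨g, -, hg⟩ := (hSGR K τ hτ).1 γ (r * c ^ (ch6 γ)) hγ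
    obtain ⟨h, -, hh⟩ := (hSGR K τ hτ).1 γ (s * c ^ (ch6 γ)) hγ
    refine ⟨fun X hX => ?_, fun X hX => ?_⟩
    · have h1 := k5a _ _ g h hg hh
      rw [← add_mul] at h1
      rw [k5c _ _ _ hX h1]
      exact mul_mem (hr g hg) (hs h hh)
    · have h1 := k5b _ _ hg
      rw [← neg_mul] at h1
      rw [k5c _ _ _ hX h1]
      exact inv_mem (hr g hg)

end Pool.Agent.EXT
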