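import Pool.Agent.helper17.GFG.Spec

/-!
# Project GFG (MP_561ff4_al), row KSC (helper16): calculus of the short root elements
-/

set_option autoImplicit false

open Finset

namespace Pool.Agent.EXT

open Pool.Agent.EXC

theorem KSC_g1 {G : Type} [Group G] (a a' b b' c c' : G) (h1 : a * b * a⁻¹ = b * c) (h2 : a' * b' * a'⁻¹ = b' * c')
    (hab' : a * b' = b' * a) (ha'b : a' * b = b * a') (hac' : a * c' = c' * a) (hcb' : c * b' = b' * c) (hcb : c * b = b * c)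
    (hc'b : c' * b = b * c') (hc'b' : c' * b' = b' * c') : (a * a') * (b * b') * (a * a')⁻¹ * (b * b')⁻¹ = c * c' := by
  have h1' : a * b = b * c * a := by rw [← h1]; group
  have h2' : a' * b' = b' * c' * a' := by rw [← h2]; group
  have e : a * a' * (b * b') = c * c' * (b * b') * (a * a') := by
    calc a * a' * (b * b') = a * (a' * b) * b' := by group
      _ = a * (b * a') * b' := by rw [ha'b]
      _ = (a * b) * (a' * b') := by group
      _ = (b * c * a) * (b' * c' * a') := by rw [h1', h2']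
      _ = b * c * (a * b') * c' * a' := by group
      _ = b * c * (b' * a) * c' * a' := by rw [hab']
      _ = b * (c * b') * (a * c') * a' := by group
      _ = b * (b' * c) * (c' * a) * a' := by rw [hcb', hac']
      _ = b * (b' * c) * c' * (a * a') := by group
      _ = b * (c * b') * c' * (a * a') := by rw [hcb']
      _ = (b * c) * (b' * c') * (a * a') := by group
      _ = (c * b) * (c' * b') * (a * a') := by rw [hcb, hc'b']
      _ = c * (b * c') * b' * (a * a') := by group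
      _ = c * (c' * b) * b' * (a * a') := by rw [hc'b]
      _ = c * c' * (b * b') * (a * a') := by group
  rw [e]
  group

theorem KSC_g2 {G : Type} [Group G] (a a' b d d' e : G) (h1 : a * b * a⁻¹ = b * d) (h2 : a' * b * a'⁻¹ = b * d')
    (h3 : a * d' * a⁻¹ = d' * e) : (a * a') * b * (a * a')⁻¹ = b * (d * d') * e := by
  calc (a * a') * b * (a * a')⁻¹ = a * (a' * b * a'⁻¹) * a⁻¹ := by group
    _ = a * (b * d') * a⁻¹ := by rw [h2]
    _ = (a * b * a⁻¹) * (a * d' * a⁻¹) := by group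
    _ = (b * d) * (d' * e) := by rw [h1, h3]
    _ = b * (d * d') * e := by group

section
variable {K : Type} [Field K] (τ : K ≃+* K)

/-- the short root element -/
noncomputable def KSC_xs (γ : Fin 6 → ℤ) (s : K) : Lm C6 K ≃ₗ[K] Lm C6 K := XG C6 γ s * XG C6 (pv γ) ((sn γ : K) * τ s)

theorem KSC_is (hRTF : RTF_stmt) {γ : Fin 6 → ℤ} (hγ : ip C6 γ γ = 2) (s : K) : IsS τ γ s (KSC_xs τ γ s) := by
  have h2 : ip C6 (pv γ) (pv γ) = 2 := by rw [hRTF.1]; exact hγ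
  intro v
  have e : KSC_xs τ γ s v = XG C6 γ s (XG C6 (pv γ) ((sn γ : K) * τ s) v) := rfl
  rw [e, (g_XG K γ hγ _).1, (g_XG K (pv γ) h2 _).1]

theorem KSC_un {γ : Fin 6 → ℤ} {s : K} {g h : Lm C6 K ≃ₗ[K] Lm C6 K} (hg : IsS τ γ s g) (hh : IsS τ γ s h) : g = h :=
  LinearEquiv.ext fun v => by rw [hg v, hh v]

theorem KSC_eq (hRTF : RTF_stmt) {γ : Fin 6 → ℤ} (hγ : ip C6 γ γ = 2) {s : K} {g : Lm C6 K ≃ₗ[K] Lm C6 K} (hg : IsS τ γ s g) :
    g = KSC_xs τ γ s := KSC_un τ hg (KSC_is τ hRTF hγ s)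

theorem KSC_com {α β : Fin 6 → ℤ} (hα : ip C6 α α = 2) (hβ : ip C6 β β = 2) (h : 0 ≤ ip C6 α β) (s t : K) :
    XG C6 α s * XG C6 β t = XG C6 β t * XG C6 α s := (k_GXC 6 C6 K hb6 α β hα hβ s t).2.2.1 h

theorem KSC_cnj {α β : Fin 6 → ℤ} (hα : ip C6 α α = 2) (hβ : ip C6 β β = 2) (h : ip C6 α β = -1) (s t : K) :
    XG C6 α s * XG C6 β t * (XG C6 α s)⁻¹ = XG C6 β t * XG C6 (α + β) (s * t * (sg C6 α β : K)) := (k_GXC 6 C6 K hb6 α β hα hβ s t).2.2.2 h

end

theorem KSC_r {α β : Fin 6 → ℤ} (hα : ip C6 α α = 2) (hβ : ip C6 β β = 2) (h : ip C6 α β = -1) : ip C6 (α + β) (α + β) = 2 := by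
  rw [ip_add_left, ip_add_right, ip_add_right, hα, hβ, ip_comm C6 β α, h]
  norm_num

theorem KSC (hRTF : RTF_stmt) (hSGR : SGR_stmt) : KSC_stmt := by
  have hRTF' := hRTF
  obtain ⟨r1, r2, r3, r4, -, -, r7, r8, -, -, r11, r12, r13, -, -⟩ := hRTF'
  have hr : ∀ γ, SR γ → ip C6 (pv γ) (pv γ) = 2 := fun γ hγ => by rw [r1]; exact hγ.1
  have hz : ∀ γ, SR γ → ip C6 (pv γ) γ = 0 := fun γ hγ => by rw [ip_comm]; exact r13 γ hγ
  have hsw : ∀ γ δ, ip C6 (pv γ) δ = ip C6 γ (pv δ) := fun γ δ => by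
    have h := r1 γ (pv δ)
    rw [r2] at h
    exact h
  have hsn : ∀ (K : Type) [Field K] (v : Fin 6 → ℤ), (sn v : K) * (sn v : K) = 1 := by
    intro K _ v
    rcases r7 v with h | h <;> rw [h] <;> simp
  -- the sign relation
  have hsg : ∀ (K : Type) [Field K] (v w : Fin 6 → ℤ), (sn v : K) * (sn w : K) * (sg C6 (pv v) (pv w) : K) = (sn (v + w) : K) * (sg C6 v w : K) := by
    intro K _ v w
    have h := r12 v w
    have h2 : (sg C6 (pv v) (pv w) : K) * (sg C6 v w : K) = (sn (v + w) : K) * (sn v : K) * (sn w : K) := by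
      have h3 := congrArg (fun z : ℤ => (z : K)) h
      simpa only [Int.cast_mul] using h3
    have h3 : (sg C6 v w : K) * (sg C6 v w : K) = 1 := sg_sq C6 v w
    calc (sn v : K) * (sn w : K) * (sg C6 (pv v) (pv w) : K)
        = (sn v : K) * (sn w : K) * ((sg C6 (pv v) (pv w) : K) * (sg C6 v w : K)) * (sg C6 v w : K) := by
          rw [show (sn v : K) * (sn w : K) * ((sg C6 (pv v) (pv w) : K) * (sg C6 v w : K)) * (sg C6 v w : K) =
            (sn v : K) * (sn w : K) * (sg C6 (pv v) (pv w) : K) * ((sg C6 v w : K) * (sg C6 v w : K)) by ring, h3, mul_one]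
      _ = ((sn v : K) * (sn v : K)) * ((sn w : K) * (sn w : K)) * ((sn (v + w) : K) * (sg C6 v w : K)) := by rw [h2]; ring
      _ = (sn (v + w) : K) * (sg C6 v w : K) := by rw [hsn, hsn]; ring
  intro K _ τ hτ
  have hss : ∀ γ, SR γ → ∀ (s : K), XG C6 γ s * XG C6 (pv γ) ((sn γ : K) * τ s) = KSC_xs τ γ s := fun γ _ s => rfl
  refine ⟨?_, ?_, ?_, ?_, ?_⟩
  · -- (1)
    intro γ δ hγ hδ h1 h2
    have h3 : ip C6 (pv γ) δ = 0 := by rw [hsw]; exact h2
    have h4 : ip C6 (pv γ) (pv δ) = -1 := by rw [r1]; exact h1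
    have h5 := hr γ hγ
    have h6 := hr δ hδ
    have h7 := hz γ hγ
    have h8 := hz δ hδ
    have h7' := r13 γ hγ
    have h8' := r13 δ hδ
    have h9 := KSC_r hγ.1 hδ.1 h1
    have h10 := KSC_r h5 h6 h4
    have h11 : ip C6 (γ + δ) (pv γ + pv δ) = 0 := by
      rw [ip_add_left, ip_add_right, ip_add_right, h7', h2, ip_comm C6 δ (pv γ), h3, h8']
      norm_num
    have hSR : SR (γ + δ) := by
      refine ⟨h9, fun h => ?_⟩
      rw [r3] at h
      rw [h, h9] at h11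
      norm_num at h11
    refine ⟨hSR, sg C6 γ δ, sg_cases C6 γ δ, fun s t g h hg hh => ?_⟩
    rw [KSC_eq τ hRTF hγ.1 hg, KSC_eq τ hRTF hδ.1 hh]
    have e := KSC_g1 (XG C6 γ s) (XG C6 (pv γ) ((sn γ : K) * τ s)) (XG C6 δ t) (XG C6 (pv δ) ((sn δ : K) * τ t)) _ _
      (KSC_cnj hγ.1 hδ.1 h1 s t) (KSC_cnj h5 h6 h4 _ _) (KSC_com hγ.1 h6 (le_of_eq h2.symm) _ _) (KSC_com h5 hδ.1 (le_of_eq h3.symm) _ _)
      (KSC_com hγ.1 h10 (by rw [ip_add_right, h7', h2]; norm_num) _ _)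
      (KSC_com h9 h6 (by rw [ip_add_left, h2, h8']; norm_num) _ _)
      (KSC_com h9 hδ.1 (by rw [ip_add_left, h1, hδ.1]; norm_num) _ _)
      (KSC_com h10 hδ.1 (by rw [ip_add_left, h3, h8]; norm_num) _ _)
      (KSC_com h10 h6 (by rw [ip_add_left, h4, h6]; norm_num) _ _)
    have e2 : KSC_xs τ γ s * KSC_xs τ δ t * (KSC_xs τ γ s)⁻¹ * (KSC_xs τ δ t)⁻¹ = KSC_xs τ (γ + δ) ((sg C6 γ δ : K) * s * t) := by
      refine e.trans ?_
      unfold KSC_xs
      rw [r3, show s * t * (sg C6 γ δ : K) = (sg C6 γ δ : K) * s * t by ring,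
        show (sn γ : K) * τ s * ((sn δ : K) * τ t) * (sg C6 (pv γ) (pv δ) : K) = (sn (γ + δ) : K) * τ ((sg C6 γ δ : K) * s * t) by
          rw [map_mul, map_mul, map_intCast,
            show (sn γ : K) * τ s * ((sn δ : K) * τ t) * (sg C6 (pv γ) (pv δ) : K) =
              ((sn γ : K) * (sn δ : K) * (sg C6 (pv γ) (pv δ) : K)) * (τ s * τ t) by ring, hsg]
          ring]
    rw [e2]
    exact KSC_is τ hRTF h9 _
  · -- (2)
    intro γ β hγ hβ h1
    have h3 : ip C6 (pv γ) β = -1 := by rw [hsw, hβ.2]; exact h1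
    have h5 := hr γ hγ
    have h7 := hz γ hγ
    have h7' := r13 γ hγ
    have h9 := KSC_r hγ.1 hβ.1 h1
    have h10 := KSC_r h5 hβ.1 h3
    have h11 : ip C6 γ (pv γ + β) = -1 := by rw [ip_add_right, h7', h1]; norm_num
    have h12 := KSC_r hγ.1 h10 h11
    have hSR : SR (γ + β) := by
      refine ⟨h9, fun h => hγ.2 ?_⟩
      rw [r3, hβ.2] at h
      exact add_right_cancel h
    have hLR : LR (γ + pv γ + β) := by
      refine ⟨by rw [add_assoc]; exact h12, ?_⟩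
      rw [r3, r3, r2, hβ.2, add_comm (pv γ) γ]
    refine ⟨hSR, hLR, sg C6 γ β, sn γ * (sg C6 (pv γ) β * sg C6 γ (pv γ + β)), sg_cases C6 γ β, ?_, fun s t g ht hg => ?_⟩
    · rcases r7 γ with h | h <;> rcases sg_cases C6 (pv γ) β with h' | h' <;> rcases sg_cases C6 γ (pv γ + β) with h'' | h'' <;>
        rw [h, h', h''] <;> norm_num
    · refine ⟨KSC_xs τ (γ + β) ((sg C6 γ β : K) * s * t), KSC_is τ hRTF h9 _, ?_⟩
      rw [KSC_eq τ hRTF hγ.1 hg]
      have e := KSC_g2 (XG C6 γ s) (XG C6 (pv γ) ((sn γ : K) * τ s)) (XG C6 β t) _ _ _ (KSC_cnj hγ.1 hβ.1 h1 s t)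
        (KSC_cnj h5 hβ.1 h3 _ _) (KSC_cnj hγ.1 h10 h11 _ _)
      refine e.trans ?_
      unfold KSC_xs
      have h13 : (sn γ : K) * (sg C6 (pv γ) β : K) = (sn (γ + β) : K) * (sg C6 γ β : K) := by
        have h14 := hsg K γ β
        rw [hβ.2, r11 β hβ.2, Int.cast_one, mul_one] at h14
        exact h14
      rw [r3, hβ.2, ← add_assoc, show s * t * (sg C6 γ β : K) = (sg C6 γ β : K) * s * t by ring,
        show (sn γ : K) * τ s * t * (sg C6 (pv γ) β : K) = (sn (γ + β) : K) * τ ((sg C6 γ β : K) * s * t) by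
          rw [map_mul, map_mul, map_intCast, ht,
            show (sn γ : K) * τ s * t * (sg C6 (pv γ) β : K) = ((sn γ : K) * (sg C6 (pv γ) β : K)) * (τ s * t) by ring, h13]
          ring]
      congr 2
      rw [map_mul, map_mul, map_intCast, ht, Int.cast_mul, Int.cast_mul]
      have h15 : (sn (γ + β) : K) * (τ s * t) * (sg C6 γ β : K) = (sn γ : K) * (sg C6 (pv γ) β : K) * (τ s * t) := by rw [h13]; ring
      calc s * ((sn (γ + β) : K) * ((sg C6 γ β : K) * τ s * t)) * (sg C6 γ (pv γ + β) : K)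
          = s * ((sn (γ + β) : K) * (τ s * t) * (sg C6 γ β : K)) * (sg C6 γ (pv γ + β) : K) := by ring
        _ = _ := by rw [h15]; ring
  · -- (3)
    intro γ β hγ hβ h1 s t g hg
    rw [KSC_eq τ hRTF hγ.1 hg]
    unfold KSC_xs
    have h3 : 0 ≤ ip C6 (pv γ) β := by rw [hsw, hβ.2]; exact h1
    rw [mul_assoc, KSC_com (hr γ hγ) hβ.1 h3, ← mul_assoc, KSC_com hγ.1 hβ.1 h1, mul_assoc]
  · -- (4)
    intro γ δ hγ hδ h1 h2 s t g h hg hh
    rw [KSC_eq τ hRTF hγ.1 hg, KSC_eq τ hRTF hδ.1 hh]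
    unfold KSC_xs
    have h3 : 0 ≤ ip C6 (pv γ) δ := by rw [hsw]; exact h2
    have h4 : 0 ≤ ip C6 (pv γ) (pv δ) := by rw [r1]; exact h1
    have c1 := KSC_com hγ.1 hδ.1 h1 s t
    have c2 := KSC_com hγ.1 (hr δ hδ) h2 s ((sn δ : K) * τ t)
    have c3 := KSC_com (hr γ hγ) hδ.1 h3 ((sn γ : K) * τ s) t
    have c4 := KSC_com (hr γ hγ) (hr δ hδ) h4 ((sn γ : K) * τ s) ((sn δ : K) * τ t)
    exact (Commute.mul_left (Commute.mul_right c1 c2) (Commute.mul_right c3 c4)).eq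
  · -- (5)
    intro γ hγ
    refine ⟨fun s t g h hg hh => (hSGR K τ hτ).2.2.1 γ s t g h hγ hg hh, fun s g hg => ?_, fun s g h hg hh => KSC_un τ hg hh⟩
    rw [KSC_eq τ hRTF hγ.1 hg]
    have e : (KSC_xs τ γ s)⁻¹ = KSC_xs τ γ (-s) := by
      unfold KSC_xs
      rw [mul_inv_rev, (g_XG K γ hγ.1 s).2.2, (g_XG K (pv γ) (hr γ hγ) _).2.2, map_neg, mul_neg,
        KSC_com (hr γ hγ) hγ.1 (le_of_eq (hz γ hγ).symm)]
    rw [e]
    exact KSC_is τ hRTF hγ.1 _

end Pool.Agent.EXT
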