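import Pool.Agent.helper16.GFG.KSC

/-!
# Project GFG (MP_561ff4_al), row KWS (helper16): the Weyl element
-/

set_option autoImplicit false

open Finset

namespace Pool.Agent.EXT

open Pool.Agent.EXC

theorem KWS_n {K : Type} [Field K] (β γ : Fin 6 → ℤ) (hβ : ip C6 β β = 2) (hγ : ip C6 γ γ = 2) (h : ip C6 β γ = -1) (u : K) (u0 : u ≠ 0) :
    (XG C6 β u * XG C6 (-β) u⁻¹ * XG C6 β u : Lm C6 K ≃ₗ[K] Lm C6 K) (E C6 γ) = (u * (sg C6 β γ : K)) • (E C6 (γ + β) : Lm C6 K) := by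
  have hn : ip C6 (-β) (-β) = 2 := by rw [ip_neg_left, ip_neg_right, hβ]; norm_num
  have hr := KSC_r hβ hγ h
  have e1 := (g_XG K β hβ u).1
  have e2 := (g_XG K (-β) hn u⁻¹).1
  have a1 := (f_ACT 6 C6 K β u hβ).2.1 γ hγ h
  have a2 := (f_ACT 6 C6 K β u hβ).1 (β + γ) hr (by rw [ip_add_right, hβ, h]; norm_num)
  have b1 := (f_ACT 6 C6 K (-β) u⁻¹ hn).1 γ hγ (by rw [ip_neg_left, h]; norm_num)
  have hnm : ip C6 (-β) (β + γ) = -1 := by rw [ip_neg_left, ip_add_right, hβ, h]; norm_num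
  have b2 := (f_ACT 6 C6 K (-β) u⁻¹ hn).2.1 (β + γ) hr hnm
  rw [neg_add_cancel_left, sg_neg_left, sg_add_right, sg_self C6 hβ] at b2
  have hsq : (sg C6 β γ : K) * (sg C6 β γ : K) = 1 := sg_sq C6 β γ
  have hg : ∀ v, (XG C6 β u * XG C6 (-β) u⁻¹ * XG C6 β u : Lm C6 K ≃ₗ[K] Lm C6 K) v = XG C6 β u (XG C6 (-β) u⁻¹ (XG C6 β u v)) := fun v => rfl
  rw [hg, e1 (E C6 γ), a1, map_add, map_smul, e2, e2, b1, b2]
  have e3 : (E C6 γ : Lm C6 K) + (u * (sg C6 β γ : K)) • (E C6 (β + γ) + (u⁻¹ * ((-1 * sg C6 β γ : ℤ) : K)) • E C6 γ) =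
      (u * (sg C6 β γ : K)) • E C6 (β + γ) := by
    rw [smul_add, smul_smul]
    have e4 : u * (sg C6 β γ : K) * (u⁻¹ * ((-1 * sg C6 β γ : ℤ) : K)) = -1 := by
      push_cast
      calc u * (sg C6 β γ : K) * (u⁻¹ * (-1 * (sg C6 β γ : K))) = -((u * u⁻¹) * ((sg C6 β γ : K) * (sg C6 β γ : K))) := by ring
        _ = -1 := by rw [mul_inv_cancel₀ u0, hsq, one_mul]
    rw [e4, neg_one_smul]
    abel
  rw [e3, map_smul, e1, a2, add_comm β γ]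

theorem KWS_ch (v w : Fin 6 → ℤ) : ch6 (v + w) = ch6 v + ch6 w := by
  unfold ch6
  simp only [Pi.add_apply]
  ring

theorem KWS_chn (v : Fin 6 → ℤ) : ch6 (-v) = -ch6 v := by
  unfold ch6
  simp only [Pi.neg_apply]
  ring

theorem KWS (hKSC : KSC_stmt) (hSGR : SGR_stmt) (hRTF : RTF_stmt) : KWS_stmt := by
  intro K _ τ hτ c hc c0 H γ β hγ hβ h1 m1 m2 r hr
  have hRTF' := hRTF
  obtain ⟨r1, r2, r3, r4, -, -, r7, r8, -, -, r11, r12, r13, -, -⟩ := hRTF'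
  obtain ⟨-, k2, -, -, k5⟩ := hKSC K τ hτ
  obtain ⟨hSR, -, -⟩ := k2 γ β hγ hβ h1
  set u : K := c ^ (ch6 β) with hu
  have u0 : u ≠ 0 := zpow_ne_zero _ c0
  have hτu : τ u = u := by rw [hu, map_zpow₀, hc]
  have e1 : XP6 c β 1 = XG C6 β u := by
    unfold XP6
    rw [one_mul]
  have e2 : XP6 c (-β) 1 = XG C6 (-β) u⁻¹ := by
    unfold XP6
    rw [one_mul, KWS_chn, zpow_neg]
  rw [e1] at m1
  rw [e2] at m2
  have h2 : ip C6 β γ = -1 := by rw [ip_comm]; exact h1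
  have hπ : ip C6 (pv γ) (pv γ) = 2 := by rw [r1]; exact hγ.1
  have h3 : ip C6 β (pv γ) = -1 := by
    have h4 := r1 β γ
    rw [hβ.2] at h4
    rw [h4]
    exact h2
  have hnR : ip C6 (-β) (-β) = 2 := by rw [ip_neg_left, ip_neg_right, hβ.1]; norm_num
  set n : Lm C6 K ≃ₗ[K] Lm C6 K := XG C6 β u * XG C6 (-β) u⁻¹ * XG C6 β u with hn
  have hnH : n ∈ H := mul_mem (mul_mem m1 m2) m1
  have hnG : n ∈ GE C6 K := mul_mem (mul_mem (g_XG K β hβ.1 u).2.1 (g_XG K (-β) hnR _).2.1) (g_XG K β hβ.1 u).2.1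
  have n1 := KWS_n β γ hβ.1 hγ.1 h2 u u0
  have n2 := KWS_n β (pv γ) hβ.1 hπ h3 u u0
  have hrt : ip C6 (γ + β) (γ + β) = 2 := hSR.1
  have hrt2 : ip C6 (pv γ + β) (pv γ + β) = 2 := KSC_r hπ hβ.1 (by rw [ip_comm]; exact h3)
  obtain ⟨s, hs⟩ : ∃ s : K, s = r * c ^ (ch6 γ) := ⟨_, rfl⟩
  have c1 := k_GCJ 6 C6 K hb6 n hnG γ (γ + β) hγ.1 hrt _ n1 s
  have c2 := k_GCJ 6 C6 K hb6 n hnG (pv γ) (pv γ + β) hπ hrt2 _ n2 ((sn γ : K) * τ s)
  have hsn : (sg C6 β (pv γ) : K) * (sn γ : K) = (sn (γ + β) : K) * (sg C6 β γ : K) := by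
    have h4 := r12 β γ
    rw [hβ.2, r11 β hβ.2, mul_one, add_comm β γ] at h4
    have h5 : (sg C6 β (pv γ) : K) * (sg C6 β γ : K) = (sn (γ + β) : K) * (sn γ : K) := by
      have h6 := congrArg (fun z : ℤ => (z : K)) h4
      simpa only [Int.cast_mul] using h6
    have h6 : (sg C6 β γ : K) * (sg C6 β γ : K) = 1 := sg_sq C6 β γ
    have h7 : (sn γ : K) * (sn γ : K) = 1 := by
      rcases r7 γ with h | h <;> rw [h] <;> simp
    calc (sg C6 β (pv γ) : K) * (sn γ : K) = (sg C6 β (pv γ) : K) * ((sg C6 β γ : K) * (sg C6 β γ : K)) * (sn γ : K) := by rw [h6, mul_one]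
      _ = ((sg C6 β (pv γ) : K) * (sg C6 β γ : K)) * (sg C6 β γ : K) * (sn γ : K) := by ring
      _ = (sn (γ + β) : K) * ((sn γ : K) * (sn γ : K)) * (sg C6 β γ : K) := by rw [h5]; ring
      _ = (sn (γ + β) : K) * (sg C6 β γ : K) := by rw [h7, mul_one]
  have hcj : n * KSC_xs τ γ s * n⁻¹ = KSC_xs τ (γ + β) (u * (sg C6 β γ : K) * s) := by
    unfold KSC_xs
    have e3 : n * (XG C6 γ s * XG C6 (pv γ) ((sn γ : K) * τ s)) * n⁻¹ = (n * XG C6 γ s * n⁻¹) * (n * XG C6 (pv γ) ((sn γ : K) * τ s) * n⁻¹) := by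
      group
    rw [e3, c1, c2, r3, hβ.2]
    congr 2
    rw [map_mul, map_mul, map_intCast, hτu]
    calc u * (sg C6 β (pv γ) : K) * ((sn γ : K) * τ s) = u * ((sg C6 β (pv γ) : K) * (sn γ : K)) * τ s := by ring
      _ = _ := by rw [hsn]; ring
  have hXH : KSC_xs τ γ s ∈ H := hr _ (by rw [← hs]; exact KSC_is τ hRTF hγ.1 s)
  have hcH : KSC_xs τ (γ + β) (u * (sg C6 β γ : K) * s) ∈ H := by
    rw [← hcj]
    exact mul_mem (mul_mem hnH hXH) (inv_mem hnH)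
  have hI := KSC_is τ hRTF hrt (u * (sg C6 β γ : K) * s)
  have e5 : u * (sg C6 β γ : K) * s = (sg C6 β γ : K) * (r * c ^ (ch6 (γ + β))) := by
    rw [KWS_ch, zpow_add₀ c0, hs, hu]
    ring
  rw [e5] at hI hcH
  obtain ⟨-, k5b, k5c⟩ := k5 (γ + β) hSR
  intro X hX
  rcases sg_cases C6 β γ with h | h
  · rw [h, Int.cast_one, one_mul] at hI hcH
    rw [k5c _ _ _ hX hI]
    exact hcH
  · rw [h, Int.cast_neg, Int.cast_one, neg_one_mul] at hI hcH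
    have h7 := k5b _ _ hI
    rw [neg_neg] at h7
    rw [k5c _ _ _ hX h7]
    exact inv_mem hcH

end Pool.Agent.EXT
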