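import Pool.Agent.helper16.GFG.K50
import Pool.Agent.helper16.GFG.KFA
import Pool.Agent.helper16.GFG.KLG
import Pool.Agent.helper16.GFG.KRG
import Pool.Agent.helper16.GFG.KSC
import Pool.Agent.helper16.GFG.KWS
import Pool.Agent.helper18.EXT.YCF
import Pool.Agent.helper2.GFG.KMU
import Pool.Agent.helper20.GFG.K51
import Pool.Agent.helper20.GFG.KFF
import Pool.Agent.helper25.EXT.YSS
import Pool.Agent.helper28.EXT.UPR
import Pool.Agent.helper29.EXT.THF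
import Pool.Agent.helper32.GFG.K52
import Pool.Agent.helper32.GFG.KCJ
import Pool.Agent.helper32.GFG.KGN
import Pool.Agent.helper32.GFG.KPR
import Pool.Agent.helper32.GFG.KSN
import Pool.Agent.helper32.GFG.KSQ
import Pool.Agent.helper32.GFG.KXC
import Pool.Agent.helper36.EXT.TOR
import Pool.Agent.helper38.GFG.KFG
import Pool.Agent.helper39.EXT.PCS
import Pool.Agent.helper43.EXT.IMF
import Pool.Agent.helper43.EXT.LST
import Pool.Agent.helper44.EXT.SIG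
import Pool.Agent.helper48.EXT.GEF
import Pool.Agent.helper48.EXT.NKF
import Pool.Agent.helper48.EXT.NRS
import Pool.Agent.helper50.EXT.GEP
import Pool.Agent.helper51.GFG.KFI
import Pool.Agent.helper54.EXT.SGR
import Pool.Agent.helper56.EXT.PAR
import Pool.Agent.helper56.EXT.UNF
import Pool.Agent.helper58.GFG.KPP
import Pool.Agent.helper58.GFG.KRD
import Pool.Agent.helper60.GFG.KVA
import Pool.Agent.helper61.EXT.RKS
import Pool.Agent.helper61.EXT.UDC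
import Pool.Agent.helper66.EXT.FXF
import Pool.Agent.helper67.EXT.WST
import Pool.Agent.helper69.GFG.KPM
import Pool.Agent.helper69.GFG.KYB
import Pool.Agent.helper71.EXT.TFS
import Pool.Agent.helper74.EXT.RTF
import Pool.Agent.helper79.GFG.KD2
import Pool.Agent.helper87.EXT.ACS
import Pool.Agent.helper89.EXT.GFX
import Pool.Agent.helper9.EXT.ESF
import Pool.Agent.helper90.EXT.WPS

/-!
# Project GFG (MP_561ff4_al): all rows put together. Ten conjugates of `x ≠ 1` generate `F₄(q)`, `²E₆(q)`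
-/

set_option autoImplicit false

namespace Pool.Agent.EXT.AGF

theorem h_LST : Pool.Agent.EXT.LST_stmt := Pool.Agent.EXT.LST
theorem h_RTF : Pool.Agent.EXT.RTF_stmt := Pool.Agent.EXT.RTF h_LST
theorem h_WST : Pool.Agent.EXT.WST_stmt := Pool.Agent.EXT.WST h_LST h_RTF
theorem h_SIG : Pool.Agent.EXT.SIG_stmt := Pool.Agent.EXT.SIG h_RTF
theorem h_SGR : Pool.Agent.EXT.SGR_stmt := Pool.Agent.EXT.SGR h_RTF h_SIG
theorem h_NRS : Pool.Agent.EXT.NRS_stmt := Pool.Agent.EXT.NRS h_RTF h_SGR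
theorem h_GEP : Pool.Agent.EXT.GEP_stmt := Pool.Agent.EXT.GEP h_RTF h_WST h_SIG h_SGR h_NRS
theorem h_WPS : Pool.Agent.EXT.WPS_stmt := Pool.Agent.EXT.WPS h_NRS h_GEP h_WST
theorem h_TOR : Pool.Agent.EXT.TOR_stmt := Pool.Agent.EXT.TOR h_SGR
theorem h_ESF : Pool.Agent.EXT.ESF_stmt := Pool.Agent.EXT.ESF h_SIG h_SGR
theorem h_ACS : Pool.Agent.EXT.ACS_stmt := Pool.Agent.EXT.ACS h_RTF
theorem h_GFX : Pool.Agent.EXT.GFX_stmt := Pool.Agent.EXT.GFX h_RTF h_SIG h_SGR h_ESF h_ACS h_WST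
theorem h_TFS : Pool.Agent.EXT.TFS_stmt := Pool.Agent.EXT.TFS h_RTF h_WST h_WPS h_ESF h_GFX h_SGR
theorem h_PAR : Pool.Agent.EXT.PAR_stmt := Pool.Agent.EXT.PAR h_RTF h_WST h_WPS h_TOR h_TFS h_LST
theorem h_KPR : Pool.Agent.EXT.KPR_stmt := Pool.Agent.EXT.KPR h_PAR h_WST h_WPS h_TOR h_LST h_RTF
theorem h_KCJ : Pool.Agent.EXT.KCJ_stmt := Pool.Agent.EXT.KCJ h_GFX h_ESF h_TFS h_SGR
theorem h_KRD : Pool.Agent.EXT.KRD_stmt := Pool.Agent.EXT.KRD h_GFX h_SGR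
theorem h_KXC : Pool.Agent.EXT.KXC_stmt := Pool.Agent.EXT.KXC
theorem h_KSN : Pool.Agent.EXT.KSN_stmt := Pool.Agent.EXT.KSN h_KXC
theorem h_KGN : Pool.Agent.EXT.KGN_stmt := Pool.Agent.EXT.KGN h_KXC h_LST
theorem h_KSC : Pool.Agent.EXT.KSC_stmt := Pool.Agent.EXT.KSC h_RTF h_SGR
theorem h_KFA : Pool.Agent.EXT.KFA_stmt := Pool.Agent.EXT.KFA h_KXC h_KSC h_RTF
theorem h_KFI : Pool.Agent.EXT.KFI_stmt := Pool.Agent.EXT.KFI h_KXC h_KSC h_KFA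
theorem h_KWS : Pool.Agent.EXT.KWS_stmt := Pool.Agent.EXT.KWS h_KSC h_SGR h_RTF
theorem h_KRG : Pool.Agent.EXT.KRG_stmt := Pool.Agent.EXT.KRG h_KSC h_KWS h_LST h_SGR
theorem h_KMU : Pool.Agent.EXT.KMU_stmt := Pool.Agent.EXT.KMU h_KRG h_LST
theorem h_KSQ : Pool.Agent.EXT.KSQ_stmt := Pool.Agent.EXT.KSQ
theorem h_KLG : Pool.Agent.EXT.KLG_stmt := Pool.Agent.EXT.KLG h_KSC h_KSQ h_SGR h_LST
theorem h_KFG : Pool.Agent.EXT.KFG_stmt := Pool.Agent.EXT.KFG h_KFI h_KMU h_KLG h_KSC h_SGR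
theorem h_K50 : Pool.Agent.EXT.K50_stmt := Pool.Agent.EXT.K50 h_KPR h_KCJ h_KRD h_KSN h_KGN h_KXC h_KFG
theorem h_KPM : Pool.Agent.EXT.KPM_stmt := Pool.Agent.EXT.KPM h_PAR h_TOR h_LST
theorem h_K51 : Pool.Agent.EXT.K51_stmt := Pool.Agent.EXT.K51 h_KPM h_KCJ h_KRD h_KSN h_KGN h_KXC h_KFG
theorem h_KVA : Pool.Agent.EXT.KVA_stmt := Pool.Agent.EXT.KVA
theorem h_KYB : Pool.Agent.EXT.KYB_stmt := Pool.Agent.EXT.KYB h_KVA h_SGR
theorem h_KPP : Pool.Agent.EXT.KPP_stmt := Pool.Agent.EXT.KPP h_KVA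
theorem h_KD2 : Pool.Agent.EXT.KD2_stmt := Pool.Agent.EXT.KD2 h_KVA h_KPP h_KGN h_KXC
theorem h_K52 : Pool.Agent.EXT.K52_stmt := Pool.Agent.EXT.K52 h_PAR h_KCJ h_KRD h_KYB h_KD2 h_KFG h_KXC h_SGR
theorem h_UPR : Pool.Agent.EXT.UPR_stmt := Pool.Agent.EXT.UPR
theorem h_UDC : Pool.Agent.EXT.UDC_stmt := Pool.Agent.EXT.UDC h_RTF h_SIG h_SGR h_UPR
theorem h_RKS : Pool.Agent.EXT.RKS_stmt := Pool.Agent.EXT.RKS h_RTF h_ACS
theorem h_YSS : Pool.Agent.EXT.YSS_stmt := Pool.Agent.EXT.YSS h_SGR h_GEP h_UPR h_UDC h_RKS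
theorem h_PCS : Pool.Agent.EXT.PCS_stmt := Pool.Agent.EXT.PCS h_RTF h_WST h_WPS h_ESF h_YSS
theorem h_UNF : Pool.Agent.EXT.UNF_stmt := Pool.Agent.EXT.UNF h_ESF h_GFX h_PCS h_RTF
theorem h_THF : Pool.Agent.EXT.THF_stmt := Pool.Agent.EXT.THF h_RTF h_ESF h_GFX h_PCS h_UNF h_TFS h_WST h_SGR
theorem h_IMF : Pool.Agent.EXT.IMF_stmt := Pool.Agent.EXT.IMF h_ESF h_GFX h_PCS h_UNF h_THF h_TFS
theorem h_NKF : Pool.Agent.EXT.NKF_stmt := Pool.Agent.EXT.NKF h_RTF h_SIG h_SGR h_ESF h_GFX h_ACS h_LST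
theorem h_FXF : Pool.Agent.EXT.FXF_stmt := Pool.Agent.EXT.FXF h_ESF h_GFX h_UNF h_NKF
theorem h_GEF : Pool.Agent.EXT.GEF_stmt := Pool.Agent.EXT.GEF h_RTF h_WST h_WPS h_ESF h_GFX h_PCS h_TFS h_UNF h_IMF h_FXF h_SGR
theorem h_YCF : Pool.Agent.EXT.YCF_stmt := Pool.Agent.EXT.YCF h_GEF h_GFX h_TFS
theorem h_KFF : Pool.Agent.EXT.KFF_stmt := Pool.Agent.EXT.KFF h_K50 h_K51 h_K52 h_YCF h_FXF

end Pool.Agent.EXT.AGF
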