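import Pool.Agent.helper17.GFG.Spec
import Pool.Agent.helper17.GFG.Cert

/-! Row gg:K50 (MP_561ff4_al, helper16): type `0` (after K51 of helper20). -/

set_option autoImplicit false

open Finset

namespace Pool.Agent.EXT

open Pool.Agent.EXC

theorem K50_thLR : LR th := by
  constructor
  · decide +kernel
  · decide +kernel

theorem K50_ga : ∀ i : Fin 3, 0 ≤ ip C6 (ga3 i) (lt7 6) := by decide +kernel

theorem K50_two : ∀ P ∈ Kc0, ∀ p ∈ P, ip C6 p.1 p.1 = 2 := by decide +kernel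

theorem K50_ww {u m : Fin 6 → ℤ} (hu : LR u) (hm : LR m) (h : ip C6 u m = 1) : LR (m - u) ∧ ip C6 (m - u) u = -1 := by
  have h' : ip C6 m u = 1 := by rw [ip_comm]; exact h
  refine ⟨⟨?_, ?_⟩, ?_⟩
  · rw [sub_eq_add_neg, ip_add_left, ip_add_right, ip_add_right, ip_neg_left, ip_neg_left, ip_neg_right, ip_neg_right, hu.1, hm.1, h, h']
    norm_num
  · have e1 : pv (m - u) = pv m - pv u := rfl
    rw [e1, hu.2, hm.2]
  · rw [sub_eq_add_neg, ip_add_left, ip_neg_left, hu.1, h']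
    norm_num

theorem K50 (hKPR : KPR_stmt) (hKCJ : KCJ_stmt) (hKRD : KRD_stmt) (hKSN : KSN_stmt) (hKGN : KGN_stmt)
    (hKXC : KXC_stmt) (hKFG : KFG_stmt) : K50_stmt := by
  intro K _ _ τ hτ a b y hab hy
  obtain ⟨c, hc, c0, hPR⟩ := hKPR K τ hτ a b hab
  obtain ⟨hCJ1, hCJ2, hCJ3⟩ := hKCJ K τ hτ
  have hpm : ∀ e : K, (e = 1 ∨ e = -1) → τ e = e ∧ e ≠ 0 := by
    intro e he
    rcases he with h | h <;> rw [h] <;> simp
  have hfx : ∀ (e : K) (n : ℤ), (e = 1 ∨ e = -1) → τ (e * c ^ n) = e * c ^ n ∧ e * c ^ n ≠ 0 := by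
    intro e n he
    obtain ⟨h1, h2⟩ := hpm e he
    exact ⟨by rw [map_mul, map_zpow₀, hc, h1], mul_ne_zero h2 (zpow_ne_zero _ c0)⟩
  have hXG : ∀ u, LR u → ∀ e : K, (e = 1 ∨ e = -1) → XP6 c u e ∈ GS τ := fun u hu e he => hCJ3 u hu _ (hfx e (ch6 u) he).1
  have hpair : ∀ u v, LR u → LR v → ip C6 u v = 0 → (∃ m : ℤ, ch6 u + ch6 v = 2 * m + 1) → ∃ e e' : K, (e = 1 ∨ e = -1) ∧ (e' = 1 ∨ e' = -1) ∧
      XP6 c u e * XP6 c v e' ∈ GS τ ∧ CJ τ y (XP6 c u e * XP6 c v e') := by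
    intro u v hu hv huv hch
    obtain ⟨g, hg, e, e', he, he', hga, hgb⟩ := hPR u v hu hv huv hch
    exact ⟨e, e', he, he', mul_mem (hXG u hu e he) (hXG v hv e' he'),
      hCJ1 a b 0 y hab hy g hg u v hu hv _ _ (hfx e _ he).1 (hfx e' _ he').1 (hfx e _ he).2 (hfx e' _ he').2 hga hgb⟩
  have htrip : ∀ u m v, LR u → LR m → LR v → ip C6 u v = 0 → ip C6 u m = 1 → ip C6 m v = 1 → (∃ m : ℤ, ch6 u + ch6 v = 2 * m + 1) →
      ∃ e e'' e' : K, (e = 1 ∨ e = -1) ∧ (e'' = 1 ∨ e'' = -1) ∧ (e' = 1 ∨ e' = -1) ∧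
      XP6 c u e * (XP6 c m e'' * XP6 c v e') ∈ GS τ ∧ CJ τ y (XP6 c u e * (XP6 c m e'' * XP6 c v e')) := by
    intro u m v hu hm hv huv hum hmv hch
    obtain ⟨e, e', he, he', h1, h2⟩ := hpair u v hu hv huv hch
    obtain ⟨hw, hwu⟩ := K50_ww hu hm hum
    have hwv : ip C6 (m - u) v = 1 := by
      rw [sub_eq_add_neg, ip_add_left, ip_neg_left, hmv, huv]
      norm_num
    have hwG := hXG (m - u) hw 1 (Or.inl rfl)
    have k1 := (hKXC K c c0 (m - u) u hw.1 hu.1 1 e).2.2.2.1 hwu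
    have k2 := (hKXC K c c0 (m - u) v hw.1 hv.1 1 e').2.2.1 (by rw [hwv]; norm_num)
    rw [sub_add_cancel, one_mul] at k1
    have hs : e * (sg C6 (m - u) u : K) = 1 ∨ e * (sg C6 (m - u) u : K) = -1 := by
      rcases he with h | h <;> rcases sg_cases C6 (m - u) u with h' | h' <;> rw [h, h'] <;> simp
    have e1 : XP6 c (m - u) 1 * (XP6 c u e * XP6 c v e') * (XP6 c (m - u) 1)⁻¹ =
        XP6 c u e * (XP6 c m (e * (sg C6 (m - u) u : K)) * XP6 c v e') := by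
      calc XP6 c (m - u) 1 * (XP6 c u e * XP6 c v e') * (XP6 c (m - u) 1)⁻¹
          = (XP6 c (m - u) 1 * XP6 c u e * (XP6 c (m - u) 1)⁻¹) * ((XP6 c (m - u) 1 * XP6 c v e') * (XP6 c (m - u) 1)⁻¹) := by group
        _ = (XP6 c u e * XP6 c m (e * (sg C6 (m - u) u : K))) * ((XP6 c v e' * XP6 c (m - u) 1) * (XP6 c (m - u) 1)⁻¹) := by rw [k1, k2]
        _ = _ := by group
    refine ⟨e, e * (sg C6 (m - u) u : K), e', he, hs, he', ?_, ?_⟩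
    · exact mul_mem (hXG u hu e he) (mul_mem (hXG m hm _ hs) (hXG v hv e' he'))
    · rw [← e1]
      exact hCJ2 y _ h1 h2 _ hwG
  obtain ⟨g, hg, hFG⟩ := hKFG K τ hτ c hc c0
  obtain ⟨a0, b0, ha0, hb0, p0⟩ := hpair (lt7 15) (lt7 0) (lt7_LR 15) (lt7_LR 0) (by decide +kernel) ⟨-1, by decide +kernel⟩
  obtain ⟨a1, m1, b1, ha1, hm1, hb1, p1⟩ := htrip (lt7 9) (lt7 12) (lt7 1) (lt7_LR 9) (lt7_LR 12) (lt7_LR 1) (by decide +kernel) (by decide +kernel)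
    (by decide +kernel) ⟨0, by decide +kernel⟩
  obtain ⟨a2, b2, ha2, hb2, p2⟩ := hpair (lt7 13) (lt7 5) (lt7_LR 13) (lt7_LR 5) (by decide +kernel) ⟨0, by decide +kernel⟩
  obtain ⟨a3, m3, b3, ha3, hm3, hb3, p3⟩ := htrip (lt7 15) (lt7 1) (lt7 18) (lt7_LR 15) (lt7_LR 1) (lt7_LR 18) (by decide +kernel) (by decide +kernel)
    (by decide +kernel) ⟨-1, by decide +kernel⟩
  obtain ⟨a4, b4, ha4, hb4, p4⟩ := hpair th (lt7 6) K50_thLR (lt7_LR 6) (by decide +kernel) ⟨0, by decide +kernel⟩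
  have p5 : g * (XP6 c th a4 * XP6 c (lt7 6) b4) * g⁻¹ ∈ GS τ ∧ CJ τ y (g * (XP6 c th a4 * XP6 c (lt7 6) b4) * g⁻¹) :=
    ⟨mul_mem (mul_mem hg p4.1) (inv_mem hg), hCJ2 y _ p4.1 p4.2 g hg⟩
  obtain ⟨k, hk0, hk1, hk2, hk3, hk4⟩ : ∃ k : Fin 5 → Lm C6 K ≃ₗ[K] Lm C6 K,
      k 0 = XP6 c (lt7 15) a0 * XP6 c (lt7 0) b0 ∧ k 1 = XP6 c (lt7 9) a1 * (XP6 c (lt7 12) m1 * XP6 c (lt7 1) b1) ∧
      k 2 = XP6 c (lt7 13) a2 * XP6 c (lt7 5) b2 ∧ k 3 = XP6 c (lt7 15) a3 * (XP6 c (lt7 1) m3 * XP6 c (lt7 18) b3) ∧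
      k 4 = g * (XP6 c th a4 * XP6 c (lt7 6) b4) * g⁻¹ :=
    ⟨![XP6 c (lt7 15) a0 * XP6 c (lt7 0) b0, XP6 c (lt7 9) a1 * (XP6 c (lt7 12) m1 * XP6 c (lt7 1) b1),
      XP6 c (lt7 13) a2 * XP6 c (lt7 5) b2, XP6 c (lt7 15) a3 * (XP6 c (lt7 1) m3 * XP6 c (lt7 18) b3),
      g * (XP6 c th a4 * XP6 c (lt7 6) b4) * g⁻¹], rfl, rfl, rfl, rfl, rfl⟩
  refine hKRD K τ hτ y k ?_ ?_
  · intro i
    have hi : i = 0 ∨ i = 1 ∨ i = 2 ∨ i = 3 ∨ i = 4 := by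
      fin_cases i <;> simp
    rcases hi with h | h | h | h | h
    · rw [h, hk0]; exact p0
    · rw [h, hk1]; exact p1
    · rw [h, hk2]; exact p2
    · rw [h, hk3]; exact p3
    · rw [h, hk4]; exact p5
  · intro H hk
    have h0 := hk 0
    have h1 := hk 1
    have h2 := hk 2
    have h3 := hk 3
    have h4 := hk 4
    rw [hk0] at h0
    rw [hk1] at h1
    rw [hk2] at h2
    rw [hk3] at h3
    rw [hk4] at h4
    have hpr : ∀ (u v : Fin 6 → ℤ) (e e' : K), (e = 1 ∨ e = -1) → (e' = 1 ∨ e' = -1) → XP6 c u e * XP6 c v e' ∈ H →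
        ∃ l, OK6 [(u, true), (v, true)] l ∧ pq6 c l ∈ H := by
      intro u v e e' he he' h
      refine ⟨[(u, e), (v, e')], ?_, ?_⟩
      · unfold OK6
        exact List.Forall₂.cons ⟨rfl, fun _ => he⟩ (List.Forall₂.cons ⟨rfl, fun _ => he'⟩ List.Forall₂.nil)
      · have h5 : pq6 c [(u, e), (v, e')] = XP6 c u e * XP6 c v e' := by
          unfold pq6
          simp
        rw [h5]
        exact h
    have htr : ∀ (u m v : Fin 6 → ℤ) (e e'' e' : K), (e = 1 ∨ e = -1) → (e'' = 1 ∨ e'' = -1) → (e' = 1 ∨ e' = -1) →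
        XP6 c u e * (XP6 c m e'' * XP6 c v e') ∈ H → ∃ l, OK6 [(u, true), (m, true), (v, true)] l ∧ pq6 c l ∈ H := by
      intro u m v e e'' e' he he'' he' h
      refine ⟨[(u, e), (m, e''), (v, e')], ?_, ?_⟩
      · unfold OK6
        exact List.Forall₂.cons ⟨rfl, fun _ => he⟩ (List.Forall₂.cons ⟨rfl, fun _ => he''⟩
          (List.Forall₂.cons ⟨rfl, fun _ => he'⟩ List.Forall₂.nil))
      · have h5 : pq6 c [(u, e), (m, e''), (v, e')] = XP6 c u e * (XP6 c m e'' * XP6 c v e') := by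
          unfold pq6
          simp
        rw [h5]
        exact h
    have hcert : ∀ P ∈ Kc0, ∃ l, OK6 P l ∧ pq6 c l ∈ H := by
      intro P hP
      unfold Kc0 at hP
      rw [List.mem_cons, List.mem_cons, List.mem_cons, List.mem_cons] at hP
      rcases hP with h | h | h | h | h
      · rw [h]; exact hpr _ _ _ _ ha0 hb0 h0
      · rw [h]; exact htr _ _ _ _ _ _ ha1 hm1 hb1 h1
      · rw [h]; exact hpr _ _ _ _ ha2 hb2 h2
      · rw [h]; exact htr _ _ _ _ _ _ ha3 hm3 hb3 h3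
      · exact absurd h (List.not_mem_nil)
    have hall : ∀ β, LR β → XP6 c β 1 ∈ H :=
      hKGN K c c0 H fun j => (hKSN K c c0 Kc0 H K50_two hcert (lt7 (sx8 j)) (KC0 j)).2
    have h6 : XG C6 (lt7 6) (b4 * c ^ (ch6 (lt7 6))) ∈ H := by
      change XP6 c (lt7 6) b4 ∈ H
      rcases hb4 with h | h
      · rw [h]; exact hall _ (lt7_LR 6)
      · rw [h, (hKXC K c c0 (lt7 6) (lt7 6) (lt7_LR 6).1 (lt7_LR 6).1 1 1).2.2.2.2.1]
        exact inv_mem (hall _ (lt7_LR 6))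
    exact hFG (lt7 6) (lt7_LR 6) K50_ga a4 (b4 * c ^ (ch6 (lt7 6))) ha4 H hall h6 h4

end Pool.Agent.EXT
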