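import Pool.Agent.helper16.GFG.All

/-!
# Project GFG (MP_561ff4_al): ten conjugates of any automorphism `x ≠ 1` (permuting the long root subgroups) generate `F₄(q)`, `²E₆(q)`
-/

set_option autoImplicit false

namespace Pool.Agent.EXT

/-- `K` finite, `τ² = 1`: ten conjugates of `x` generate a group which contains all inner automorphisms, and `10 ∈ CSet r x` for every prime `r` which
divides the order. `τ = 1`: `F₄(K)`; `τ ≠ 1`: `²E₆`. -/
theorem Gen10T (K : Type) [Field K] [Finite K] (τ : K ≃+* K) (hτ : ∀ x, τ (τ x) = x) (x : MulAut (GF τ)) (hx : RAF τ x) (h1 : x ≠ 1) :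
    (∃ h : Fin 10 → GF τ, (MulAut.conj : GF τ →* MulAut (GF τ)).range ≤ Subgroup.closure (Set.range fun i => MulAut.conj (h i) * x * (MulAut.conj (h i))⁻¹)) ∧
    ∀ r : ℕ, r.Prime → r ∣ Nat.card (GF τ) → 10 ∈ Pool.Agent.GS.CSet r x :=
  AGF.h_KFF K τ hτ x hx h1

end Pool.Agent.EXT
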